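import Mathlib

/-!
# The limit points of `|Aut L| / |End L|` over finite lattices fill the unit interval

The lattices used are products of the lattices `M n` of length two with `n` atoms. A bounded
homomorphism from a product of such lattices (with at least three atoms each) to `M n` factors
through a projection and is given by an injection of the atoms.
-/

set_option autoImplicit false

namespace Pool.Agent.Results.MP_e86a57_co.LimitSet

open Topology

/-- The proportion of bijective maps among the bounded lattice endomorphisms of `L`. -/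
noncomputable def ratio (L : Type) [Lattice L] [BoundedOrder L] : ℝ :=
  (Nat.card {f : BoundedLatticeHom L L // Function.Bijective f} : ℝ) / Nat.card (BoundedLatticeHom L L)

/-- The lattice with `n` atoms, a bottom and a top. -/
inductive M (n : ℕ) : Type
  | bot : M n
  | atom : Fin n → M n
  | top : M n
deriving DecidableEq

namespace M

variable {n : ℕ}

/-- The join. -/
def sup' : M n → M n → M n
  | bot, y => y
  | x, bot => x
  | atom i, atom j => if i = j then atom i else top
  | top, _ => top
  | _, top => top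

/-- The meet. -/
def inf' : M n → M n → M n
  | top, y => y
  | x, top => x
  | atom i, atom j => if i = j then atom i else bot
  | bot, _ => bot
  | _, bot => bot

instance : Lattice (M n) where
  le x y := sup' x y = y
  le_refl x := by cases x <;> simp [sup']
  le_trans x y z h1 h2 := by
    cases x <;> cases y <;> cases z <;> simp_all [sup'] <;> split_ifs at * <;> simp_all
  le_antisymm x y h1 h2 := by
    cases x <;> cases y <;> simp_all [sup'] <;> split_ifs at * <;> simp_all
  sup := sup'
  inf := inf'
  le_sup_left x y := by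
    cases x <;> cases y <;> simp [sup'] <;> split_ifs <;> simp_all [sup']
  le_sup_right x y := by
    cases x <;> cases y <;> simp [sup'] <;> split_ifs <;> simp_all [sup']
  sup_le x y z h1 h2 := by
    cases x <;> cases y <;> cases z <;> simp_all [sup'] <;> split_ifs at * <;> simp_all [sup']
  inf_le_left x y := by
    cases x <;> cases y <;> simp [sup', inf'] <;> split_ifs <;> simp_all [sup']
  inf_le_right x y := by
    cases x <;> cases y <;> simp [sup', inf'] <;> split_ifs <;> simp_all [sup']
  le_inf x y z h1 h2 := by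
    cases x <;> cases y <;> cases z <;> simp_all [sup', inf'] <;> split_ifs at * <;> simp_all [sup']

instance : BoundedOrder (M n) where
  top := top
  bot := bot
  le_top x := by
    change sup' x top = top
    cases x <;> simp [sup']
  bot_le x := by
    change sup' bot x = x
    simp [sup']

theorem bot_def : (⊥ : M n) = bot := rfl
theorem top_def : (⊤ : M n) = top := rfl
theorem atom_ne_bot (i : Fin n) : atom i ≠ ⊥ := by rw [bot_def]; simp
theorem atom_ne_top (i : Fin n) : atom i ≠ ⊤ := by rw [top_def]; simp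
theorem bot_ne_top : (⊥ : M n) ≠ ⊤ := by rw [bot_def, top_def]; simp
theorem sup_def (x y : M n) : x ⊔ y = sup' x y := rfl
theorem inf_def (x y : M n) : x ⊓ y = inf' x y := rfl
theorem atom_sup {i j : Fin n} (h : i ≠ j) : atom i ⊔ atom j = ⊤ := by
  rw [sup_def, top_def]; simp [sup', h]
theorem atom_inf {i j : Fin n} (h : i ≠ j) : atom i ⊓ atom j = ⊥ := by
  rw [inf_def, bot_def]; simp [inf', h]

theorem cases' (x : M n) : x = ⊥ ∨ x = ⊤ ∨ ∃ i, x = atom i := by
  cases x
  · exact Or.inl rfl
  · exact Or.inr (Or.inr ⟨_, rfl⟩)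
  · exact Or.inr (Or.inl rfl)

theorem le_atom {x : M n} {i : Fin n} (h : x ≤ atom i) : x = ⊥ ∨ x = atom i := by
  change sup' x (atom i) = atom i at h
  cases x
  · exact Or.inl rfl
  · simp only [sup'] at h
    split_ifs at h with h1
    right; rw [h1]
  · exact absurd h (by simp [sup'])

/-- The equivalence with `Option (Option (Fin n))`. -/
def equiv : M n ≃ Option (Option (Fin n)) where
  toFun x := match x with
    | bot => none
    | top => some none
    | atom i => some (some i)
  invFun x := match x with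
    | none => bot
    | some none => top
    | some (some i) => atom i
  left_inv x := by cases x <;> rfl
  right_inv x := by rcases x with _ | _ | _ <;> rfl

instance : Fintype (M n) := Fintype.ofEquiv _ equiv.symm

theorem card : Fintype.card (M n) = n + 2 := by
  rw [Fintype.card_congr equiv]; simp

/-- The homomorphism given by an injection of the atoms. -/
def map {a b : ℕ} (ι : Fin a ↪ Fin b) : BoundedLatticeHom (M a) (M b) where
  toFun x := match x with
    | bot => bot
    | top => top
    | atom i => atom (ι i)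
  map_sup' x y := by
    change _ = sup' _ _
    rw [sup_def]
    cases x <;> cases y <;> simp [sup'] <;> split_ifs <;> simp_all
  map_inf' x y := by
    change _ = inf' _ _
    rw [inf_def]
    cases x <;> cases y <;> simp [inf'] <;> split_ifs <;> simp_all
  map_top' := rfl
  map_bot' := rfl

theorem map_atom {a b : ℕ} (ι : Fin a ↪ Fin b) (i : Fin a) : map ι (atom i) = atom (ι i) := rfl

theorem atom_injective : Function.Injective (atom : Fin n → M n) := by
  intro i j h; simpa using h

/-- A bounded homomorphism from `M a`, `3 ≤ a`, to `M b` is given by an injection of the atoms. -/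
theorem exists_map {a b : ℕ} (ha : 3 ≤ a) (g : BoundedLatticeHom (M a) (M b)) : ∃ ι, g = map ι := by
  have hex : ∀ i : Fin a, ∃ j k : Fin a, i ≠ j ∧ i ≠ k ∧ j ≠ k := by
    intro i
    have h1 : 2 < (Finset.univ : Finset (Fin a)).card := by rw [Finset.card_univ, Fintype.card_fin]; omega
    obtain ⟨j, hj⟩ : ∃ j, j ∈ (Finset.univ.erase i : Finset (Fin a)) :=
      Finset.card_pos.1 (by rw [Finset.card_erase_of_mem (Finset.mem_univ _)]; omega)
    obtain ⟨k, hk⟩ : ∃ k, k ∈ ((Finset.univ.erase i).erase j : Finset (Fin a)) :=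
      Finset.card_pos.1 (by
        rw [Finset.card_erase_of_mem hj, Finset.card_erase_of_mem (Finset.mem_univ _)]; omega)
    simp only [Finset.mem_erase, Finset.mem_univ, and_true] at hj hk
    exact ⟨j, k, fun h => hj h.symm, fun h => hk.2 h.symm, fun h => hk.1 h.symm⟩
  have hbt : (⊥ : M b) ≠ ⊤ := bot_ne_top
  have hatom : ∀ i, ∃ j, g (atom i) = atom j := by
    intro i
    obtain ⟨j, k, hij, hik, hjk⟩ := hex i
    have e1 : g (atom i) ⊔ g (atom j) = ⊤ := by rw [← map_sup, atom_sup hij, map_top]
    have e2 : g (atom i) ⊔ g (atom k) = ⊤ := by rw [← map_sup, atom_sup hik, map_top]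
    have e3 : g (atom j) ⊔ g (atom k) = ⊤ := by rw [← map_sup, atom_sup hjk, map_top]
    have f1 : g (atom i) ⊓ g (atom j) = ⊥ := by rw [← map_inf, atom_inf hij, map_bot]
    have f2 : g (atom i) ⊓ g (atom k) = ⊥ := by rw [← map_inf, atom_inf hik, map_bot]
    have f3 : g (atom j) ⊓ g (atom k) = ⊥ := by rw [← map_inf, atom_inf hjk, map_bot]
    rcases cases' (g (atom i)) with h | h | ⟨l, h⟩
    · rw [h, bot_sup_eq] at e1 e2
      rw [e1, e2, top_inf_eq] at f3
      exact absurd f3.symm hbt
    · rw [h, top_inf_eq] at f1 f2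
      rw [f1, f2, bot_sup_eq] at e3
      exact absurd e3 hbt
    · exact ⟨l, h⟩
  choose ι hι using hatom
  have hinj : Function.Injective ι := by
    intro i j hij
    by_contra hne
    have e1 : g (atom i) ⊔ g (atom j) = ⊤ := by rw [← map_sup, atom_sup hne, map_top]
    rw [hι, hι, hij, sup_idem] at e1
    exact atom_ne_top _ e1
  refine ⟨⟨ι, hinj⟩, ?_⟩
  refine DFunLike.ext _ _ fun x => ?_
  rcases cases' x with rfl | rfl | ⟨i, rfl⟩
  · rw [map_bot, map_bot]
  · rw [map_top, map_top]
  · rw [hι]; rfl

end M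

section Product

variable {m : ℕ} {ν : Fin m → ℕ} {n : ℕ}

/-- The homomorphism from the product given by a factor and an injection of the atoms. -/
def proj (p : Σ j : Fin m, (Fin (ν j) ↪ Fin n)) : BoundedLatticeHom (∀ j, M (ν j)) (M n) where
  toFun x := M.map p.2 (x p.1)
  map_sup' x y := by simp [map_sup]
  map_inf' x y := by simp [map_inf]
  map_top' := by simp
  map_bot' := by simp

theorem proj_apply (p : Σ j : Fin m, (Fin (ν j) ↪ Fin n)) (x : ∀ j, M (ν j)) :
    proj p x = M.map p.2 (x p.1) := rfl

theorem proj_injective : Function.Injective (proj (ν := ν) (n := n)) := by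
  rintro ⟨j, ι⟩ ⟨k, κ⟩ h
  have h1 : ∀ x : ∀ j, M (ν j), M.map ι (x j) = M.map κ (x k) := fun x => DFunLike.congr_fun h x
  have hjk : j = k := by
    by_contra hne
    have := h1 (Function.update ⊥ j ⊤)
    rw [Function.update_self, Function.update_of_ne (Ne.symm hne), map_top] at this
    change ⊤ = M.map κ (⊥ : M (ν k)) at this
    rw [map_bot] at this
    exact M.bot_ne_top this.symm
  subst hjk
  congr 1
  ext i
  have := h1 (Function.update ⊥ j (M.atom i))
  rw [Function.update_self, M.map_atom, M.map_atom] at this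
  rw [M.atom_injective this]

theorem proj_surjective (hν : ∀ j, 3 ≤ ν j) : Function.Surjective (proj (ν := ν) (n := n)) := by
  intro f
  have hsup : ∀ j (x y : M (ν j)), Function.update (⊥ : ∀ j, M (ν j)) j (x ⊔ y) =
      Function.update ⊥ j x ⊔ Function.update ⊥ j y := by
    intro j x y
    ext k
    by_cases hk : k = j
    · subst hk; simp
    · simp [Function.update_of_ne hk]
  have hinf : ∀ j (x y : M (ν j)), Function.update (⊥ : ∀ j, M (ν j)) j (x ⊓ y) =
      Function.update ⊥ j x ⊓ Function.update ⊥ j y := by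
    intro j x y
    ext k
    by_cases hk : k = j
    · subst hk; simp
    · simp [Function.update_of_ne hk]
  have hbot : ∀ j, Function.update (⊥ : ∀ j, M (ν j)) j ⊥ = ⊥ := by
    intro j
    exact Function.update_eq_self j ⊥
  have h0 : ∀ j, f (Function.update ⊥ j ⊤) = ⊥ ∨ f (Function.update ⊥ j ⊤) = ⊤ := by
    intro j
    rcases M.cases' (f (Function.update ⊥ j ⊤)) with h | h | ⟨a, ha⟩
    · exact Or.inl h
    · exact Or.inr h
    · exfalso
      have hle : ∀ i, f (Function.update ⊥ j (M.atom i)) = ⊥ ∨
          f (Function.update ⊥ j (M.atom i)) = M.atom a := by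
        intro i
        apply M.le_atom
        rw [← ha]
        apply OrderHomClass.mono f
        intro k
        by_cases hk : k = j
        · subst hk; simp
        · simp [Function.update_of_ne hk]
      have hs : ∀ i k, i ≠ k → f (Function.update ⊥ j (M.atom i)) ⊔
          f (Function.update ⊥ j (M.atom k)) = M.atom a := by
        intro i k hik
        rw [← map_sup, ← hsup, M.atom_sup hik, ha]
      have hi : ∀ i k, i ≠ k → f (Function.update ⊥ j (M.atom i)) ⊓
          f (Function.update ⊥ j (M.atom k)) = ⊥ := by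
        intro i k hik
        rw [← map_inf, ← hinf, M.atom_inf hik, hbot, map_bot]
      have h3 := hν j
      have d1 : (⟨0, by omega⟩ : Fin (ν j)) ≠ ⟨1, by omega⟩ := by simp
      have d2 : (⟨0, by omega⟩ : Fin (ν j)) ≠ ⟨2, by omega⟩ := by simp
      have d3 : (⟨1, by omega⟩ : Fin (ν j)) ≠ ⟨2, by omega⟩ := by simp
      have s1 := hs _ _ d1
      have s2 := hs _ _ d2
      have s3 := hs _ _ d3
      have i1 := hi _ _ d1
      have i2 := hi _ _ d2
      have i3 := hi _ _ d3
      have hne := M.atom_ne_bot (n := n) a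
      rcases hle ⟨0, by omega⟩ with h | h <;> rcases hle ⟨1, by omega⟩ with h' | h' <;>
        rcases hle ⟨2, by omega⟩ with h'' | h'' <;> rw [h, h'] at s1 i1 <;> rw [h, h''] at s2 i2 <;>
        rw [h', h''] at s3 i3 <;> simp_all
  have h1 : ∃ j, f (Function.update ⊥ j ⊤) = ⊤ := by
    by_contra hcon
    push Not at hcon
    have h2 : ∀ j, f (Function.update ⊥ j ⊤) = ⊥ := fun j => (h0 j).resolve_right (hcon j)
    have h3 : (⊤ : ∀ j, M (ν j)) = Finset.univ.sup (fun j => Function.update ⊥ j ⊤) := by
      refine le_antisymm ?_ le_top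
      intro k
      have : Function.update (⊥ : ∀ j, M (ν j)) k ⊤ ≤ Finset.univ.sup (fun j => Function.update ⊥ j ⊤) :=
        Finset.le_sup (f := fun j => Function.update (⊥ : ∀ j, M (ν j)) j ⊤) (Finset.mem_univ k)
      have h4 := this k
      rwa [Function.update_self] at h4
    have h4 : f ⊤ = ⊥ := by
      rw [h3, map_finset_sup, Finset.sup_eq_bot_iff]
      intro j _
      exact h2 j
    rw [map_top] at h4
    exact M.bot_ne_top h4.symm
  obtain ⟨j, hj⟩ := h1
  let g : BoundedLatticeHom (M (ν j)) (M n) :=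
    { toFun := fun y => f (Function.update ⊥ j y)
      map_sup' := fun x y => by
        simp only [hsup, map_sup]
      map_inf' := fun x y => by
        simp only [hinf, map_inf]
      map_top' := hj
      map_bot' := by simp only [hbot, map_bot] }
  obtain ⟨ι, hι⟩ := M.exists_map (hν j) g
  refine ⟨⟨j, ι⟩, ?_⟩
  refine DFunLike.ext _ _ fun x => ?_
  rw [proj_apply, ← hι]
  change f (Function.update ⊥ j (x j)) = f x
  have h5 : Function.update ⊥ j (x j) = x ⊓ Function.update ⊥ j ⊤ := by
    ext k
    by_cases hk : k = j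
    · subst hk; simp
    · simp [Function.update_of_ne hk]
  rw [h5, map_inf, hj, inf_top_eq]

/-- Homomorphisms into a product. -/
def toPi (F : ∀ i : Fin m, BoundedLatticeHom (∀ j, M (ν j)) (M (ν i))) :
    BoundedLatticeHom (∀ j, M (ν j)) (∀ j, M (ν j)) where
  toFun x i := F i x
  map_sup' x y := by ext i; simp
  map_inf' x y := by ext i; simp
  map_top' := by ext i; simp
  map_bot' := by ext i; simp

/-- The endomorphism given by a choice function of factors and injections. -/
def ofData (F : ∀ i : Fin m, Σ j : Fin m, (Fin (ν j) ↪ Fin (ν i))) :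
    BoundedLatticeHom (∀ j, M (ν j)) (∀ j, M (ν j)) := toPi fun i => proj (F i)

theorem ofData_apply (F : ∀ i : Fin m, Σ j : Fin m, (Fin (ν j) ↪ Fin (ν i))) (x : ∀ j, M (ν j))
    (i : Fin m) : ofData F x i = M.map (F i).2 (x (F i).1) := rfl

theorem ofData_bijective (hν : ∀ j, 3 ≤ ν j) : Function.Bijective (ofData (ν := ν)) := by
  constructor
  · intro F G h
    funext i
    apply proj_injective
    refine DFunLike.ext _ _ fun x => ?_
    exact congrFun (DFunLike.congr_fun h x) i
  · intro f
    have h : ∀ i, ∃ p : Σ j : Fin m, (Fin (ν j) ↪ Fin (ν i)), proj p =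
        ({ toFun := fun x => f x i
           map_sup' := fun x y => by simp
           map_inf' := fun x y => by simp
           map_top' := by simp
           map_bot' := by simp } : BoundedLatticeHom (∀ j, M (ν j)) (M (ν i))) := fun i =>
      proj_surjective hν _
    choose F hF using h
    refine ⟨F, ?_⟩
    refine DFunLike.ext _ _ fun x => ?_
    funext i
    exact DFunLike.congr_fun (hF i) x

theorem bijective_iff (hν : ∀ j, 3 ≤ ν j) (hmono : StrictMono ν)
    (F : ∀ i : Fin m, Σ j : Fin m, (Fin (ν j) ↪ Fin (ν i))) :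
    Function.Bijective (ofData F) ↔ ∀ i, (F i).1 = i := by
  constructor
  · intro hb
    have hsurj : Function.Surjective (fun i => (F i).1) := by
      intro j
      by_contra hj
      push Not at hj
      have : ofData F (Function.update ⊥ j ⊤) = ofData F ⊥ := by
        funext i
        rw [ofData_apply, ofData_apply, Function.update_of_ne (hj i)]
      have h2 := congrFun (hb.1 this) j
      rw [Function.update_self] at h2
      exact M.bot_ne_top h2.symm
    have hinj : Function.Injective (fun i => (F i).1) := Finite.injective_iff_surjective.2 hsurj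
    have hle : ∀ i, (F i).1 ≤ i := by
      intro i
      have h1 := Fintype.card_le_of_embedding (F i).2
      simp only [Fintype.card_fin] at h1
      exact hmono.le_iff_le.1 h1
    intro i
    induction i using WellFoundedLT.induction with
    | _ i ih =>
      rcases lt_or_eq_of_le (hle i) with h | h
      · have := ih _ h
        exact absurd (hinj this) h.ne
      · exact h
  · intro h
    rw [← Finite.injective_iff_bijective]
    intro x y hxy
    funext i
    have h1 := congrFun hxy i
    rw [ofData_apply, ofData_apply] at h1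
    have hmi : Function.Injective (M.map (F i).2) := by
      intro a b hab
      rcases M.cases' a with rfl | rfl | ⟨c, rfl⟩ <;> rcases M.cases' b with rfl | rfl | ⟨d, rfl⟩
      · rfl
      · rw [map_bot, map_top] at hab; exact absurd hab M.bot_ne_top
      · rw [map_bot, M.map_atom] at hab; exact absurd hab.symm (M.atom_ne_bot _)
      · rw [map_bot, map_top] at hab; exact absurd hab.symm M.bot_ne_top
      · rfl
      · rw [map_top, M.map_atom] at hab; exact absurd hab.symm (M.atom_ne_top _)
      · rw [map_bot, M.map_atom] at hab; exact absurd hab (M.atom_ne_bot _)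
      · rw [map_top, M.map_atom] at hab; exact absurd hab (M.atom_ne_top _)
      · rw [M.map_atom, M.map_atom] at hab
        rw [(F i).2.injective (M.atom_injective hab)]
    have h2 := hmi h1
    rw [h i] at h2
    exact h2

theorem card_end (hν : ∀ j, 3 ≤ ν j) : Nat.card (BoundedLatticeHom (∀ j, M (ν j)) (∀ j, M (ν j))) =
    ∏ i, ∑ j, (ν i).descFactorial (ν j) := by
  rw [← Nat.card_congr (Equiv.ofBijective _ (ofData_bijective hν)), Nat.card_pi]
  refine Finset.prod_congr rfl fun i _ => ?_
  rw [Nat.card_eq_fintype_card, Fintype.card_sigma]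
  refine Finset.sum_congr rfl fun j _ => ?_
  rw [Fintype.card_embedding_eq, Fintype.card_fin, Fintype.card_fin]

theorem card_aut (hν : ∀ j, 3 ≤ ν j) (hmono : StrictMono ν) :
    Nat.card {f : BoundedLatticeHom (∀ j, M (ν j)) (∀ j, M (ν j)) // Function.Bijective f} =
    ∏ i, (ν i).factorial := by
  have e1 : {F : ∀ i : Fin m, Σ j : Fin m, (Fin (ν j) ↪ Fin (ν i)) // ∀ i, (F i).1 = i} ≃
      {f : BoundedLatticeHom (∀ j, M (ν j)) (∀ j, M (ν j)) // Function.Bijective f} :=
    (Equiv.ofBijective _ (ofData_bijective hν)).subtypeEquiv fun F =>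
      (bijective_iff hν hmono F).symm
  have e2 : {F : ∀ i : Fin m, Σ j : Fin m, (Fin (ν j) ↪ Fin (ν i)) // ∀ i, (F i).1 = i} ≃
      (∀ i : Fin m, {p : Σ j : Fin m, (Fin (ν j) ↪ Fin (ν i)) // p.1 = i}) :=
    Equiv.subtypePiEquivPi (p := fun i (q : Σ j : Fin m, (Fin (ν j) ↪ Fin (ν i))) => q.1 = i)
  have e3 : ∀ i : Fin m, {p : Σ j : Fin m, (Fin (ν j) ↪ Fin (ν i)) // p.1 = i} ≃
      (Fin (ν i) ↪ Fin (ν i)) := fun i => Equiv.sigmaSubtype i
  rw [← Nat.card_congr e1, Nat.card_congr e2, Nat.card_pi]
  refine Finset.prod_congr rfl fun i _ => ?_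
  rw [Nat.card_congr (e3 i), Nat.card_eq_fintype_card, Fintype.card_embedding_eq, Fintype.card_fin,
    Nat.descFactorial_self]

end Product

/-- The lattices used. -/
abbrev Lat (d m : ℕ) : Type := ∀ j : Fin m, M (3 + d * j)

/-- The partial sums. -/
noncomputable def S (d i : ℕ) : ℝ := ∑ t ∈ Finset.range (i + 1), 1 / ((d * t).factorial : ℝ)

/-- The partial products. -/
noncomputable def R (d m : ℕ) : ℝ := ∏ i ∈ Finset.range m, (S d i)⁻¹

theorem ratio_lat {d m : ℕ} (hd : 1 ≤ d) : ratio (Lat d m) = R d m := by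
  have h3 : ∀ j : Fin m, 3 ≤ (fun j : Fin m => 3 + d * (j : ℕ)) j := fun j => by simp
  have hmono : StrictMono (fun j : Fin m => 3 + d * (j : ℕ)) := by
    intro a b hab
    have hab' : (a : ℕ) < b := hab
    have := Nat.mul_lt_mul_of_pos_left hab' hd
    simpa using this
  unfold ratio
  have c1 := card_end (ν := fun j : Fin m => 3 + d * (j : ℕ)) h3
  have c2 := card_aut (ν := fun j : Fin m => 3 + d * (j : ℕ)) h3 hmono
  rw [c1, c2]
  push_cast
  rw [← Finset.prod_div_distrib, R, ← Fin.prod_univ_eq_prod_range (fun i => (S d i)⁻¹) m]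
  refine Finset.prod_congr rfl fun i _ => ?_
  have h4 : (∑ j : Fin m, ((3 + d * (i : ℕ)).descFactorial (3 + d * (j : ℕ)) : ℝ)) =
      ((3 + d * (i : ℕ)).factorial : ℝ) * S d i := by
    rw [S, Finset.mul_sum, Fin.sum_univ_eq_sum_range
      (fun j => ((3 + d * (i : ℕ)).descFactorial (3 + d * j) : ℝ)) m]
    rw [← Finset.sum_range_reflect (fun t => ((3 + d * (i : ℕ)).factorial : ℝ) *
      (1 / ((d * t).factorial : ℝ))) ((i : ℕ) + 1)]
    have h5 : Finset.range ((i : ℕ) + 1) ⊆ Finset.range m :=
      Finset.range_subset_range.2 (by omega)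
    rw [← Finset.sum_subset h5]
    · refine Finset.sum_congr rfl fun j hj => ?_
      rw [Finset.mem_range] at hj
      have hji : j ≤ (i : ℕ) := by omega
      have h6 : 3 + d * j ≤ 3 + d * (i : ℕ) := by
        have := Nat.mul_le_mul_left d hji
        omega
      have h7 := Nat.factorial_mul_descFactorial h6
      have h8 : 3 + d * (i : ℕ) - (3 + d * j) = d * ((i : ℕ) + 1 - 1 - j) := by
        rw [Nat.add_sub_cancel, Nat.mul_sub]; omega
      rw [h8] at h7
      have h9 : ((d * ((i : ℕ) + 1 - 1 - j)).factorial : ℝ) ≠ 0 := by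
        exact_mod_cast Nat.factorial_ne_zero _
      rw [← h7]
      push_cast
      field_simp
    · intro j _ hj
      rw [Finset.mem_range, not_lt] at hj
      have h10 : (i : ℕ) < j := by omega
      have h11 := Nat.mul_lt_mul_of_pos_left h10 hd
      rw [Nat.descFactorial_eq_zero_iff_lt.2 (by omega)]
      simp
  rw [h4]
  have h12 : ((3 + d * (i : ℕ)).factorial : ℝ) ≠ 0 := by exact_mod_cast Nat.factorial_ne_zero _
  rw [div_mul_eq_div_div, div_self h12, one_div]

theorem S_lower {d i : ℕ} (hi : 1 ≤ i) : 1 + 1 / (d.factorial : ℝ) ≤ S d i := by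
  obtain ⟨k, rfl⟩ : ∃ k, i = k + 1 := ⟨i - 1, by omega⟩
  rw [S, Finset.sum_range_succ', Finset.sum_range_succ']
  have : 0 ≤ ∑ k_1 ∈ Finset.range k, 1 / ((d * (k_1 + 1 + 1)).factorial : ℝ) :=
    Finset.sum_nonneg fun _ _ => by positivity
  simp only [zero_add, mul_one, mul_zero, Nat.factorial_zero, Nat.cast_one, div_one]
  linarith

theorem S_pos {d i : ℕ} : 1 ≤ S d i := by
  rw [S, Finset.sum_range_succ']
  have : 0 ≤ ∑ k ∈ Finset.range i, 1 / ((d * (k + 1)).factorial : ℝ) :=
    Finset.sum_nonneg fun _ _ => by positivity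
  simp only [mul_zero, Nat.factorial_zero, Nat.cast_one, div_one]
  linarith

theorem fact_bound {d : ℕ} (hd : 1 ≤ d) (t : ℕ) :
    1 / ((d * (t + 1)).factorial : ℝ) ≤ (1 / 2) ^ t * (1 / (d.factorial : ℝ)) := by
  induction t with
  | zero => simp
  | succ t ih =>
    have h1 : 2 * (d * (t + 1)).factorial ≤ (d * (t + 1 + 1)).factorial := by
      have h2 : d * (t + 1) + 1 ≤ d * (t + 1 + 1) := by nlinarith
      calc 2 * (d * (t + 1)).factorial ≤ (d * (t + 1) + 1) * (d * (t + 1)).factorial := by
            apply Nat.mul_le_mul_right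
            nlinarith
        _ = (d * (t + 1) + 1).factorial := (Nat.factorial_succ _).symm
        _ ≤ _ := Nat.factorial_le h2
    have h3 : (2 : ℝ) * (d * (t + 1)).factorial ≤ (d * (t + 1 + 1)).factorial := by exact_mod_cast h1
    have h4 : (0 : ℝ) < (d * (t + 1)).factorial := by exact_mod_cast Nat.factorial_pos _
    calc 1 / ((d * (t + 1 + 1)).factorial : ℝ) ≤ 1 / (2 * (d * (t + 1)).factorial) :=
          one_div_le_one_div_of_le (by positivity) h3
      _ = 1 / 2 * (1 / ((d * (t + 1)).factorial : ℝ)) := by rw [one_div_mul_one_div]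
      _ ≤ 1 / 2 * ((1 / 2) ^ t * (1 / (d.factorial : ℝ))) := by gcongr
      _ = _ := by ring

theorem geom_le (k : ℕ) : ∑ t ∈ Finset.range k, ((1 : ℝ) / 2) ^ t ≤ 2 := by
  have h : ∀ k : ℕ, ∑ t ∈ Finset.range k, ((1 : ℝ) / 2) ^ t = 2 - 2 * (1 / 2) ^ k := by
    intro k
    induction k with
    | zero => simp
    | succ k ih => rw [Finset.sum_range_succ, ih]; ring
  rw [h]
  have : (0 : ℝ) ≤ 2 * (1 / 2) ^ k := by positivity
  linarith

theorem S_upper {d i : ℕ} (hd : 1 ≤ d) : S d i ≤ 1 + 2 / (d.factorial : ℝ) := by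
  rw [S, Finset.sum_range_succ']
  simp only [mul_zero, Nat.factorial_zero, Nat.cast_one, div_one]
  have h1 : ∑ k ∈ Finset.range i, 1 / ((d * (k + 1)).factorial : ℝ) ≤
      ∑ k ∈ Finset.range i, (1 / 2) ^ k * (1 / (d.factorial : ℝ)) :=
    Finset.sum_le_sum fun t _ => fact_bound hd t
  rw [← Finset.sum_mul] at h1
  have h2 : (∑ k ∈ Finset.range i, ((1 : ℝ) / 2) ^ k) * (1 / (d.factorial : ℝ)) ≤
      2 * (1 / (d.factorial : ℝ)) := by
    gcongr
    exact geom_le i
  have h3 : 2 * (1 / (d.factorial : ℝ)) = 2 / (d.factorial : ℝ) := by ring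
  linarith

theorem R_nonneg (d m : ℕ) : 0 ≤ R d m :=
  Finset.prod_nonneg fun i _ => inv_nonneg.2 (by linarith [S_pos (d := d) (i := i)])

theorem R_succ (d m : ℕ) : R d (m + 1) = R d m * (S d m)⁻¹ := Finset.prod_range_succ _ _

theorem R_zero (d : ℕ) : R d 0 = 1 := by simp [R]

theorem R_one (d : ℕ) : R d 1 = 1 := by simp [R, S]

theorem R_small (d m : ℕ) : R d (m + 1) ≤ (1 / (1 + 1 / (d.factorial : ℝ))) ^ m := by
  induction m with
  | zero => simp [R_one]
  | succ m ih =>
    rw [R_succ, pow_succ]
    have h1 := S_lower (d := d) (i := m + 1) (by omega)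
    have h0 : (0 : ℝ) < 1 + 1 / (d.factorial : ℝ) := by positivity
    have h2 : (S d (m + 1))⁻¹ ≤ 1 / (1 + 1 / (d.factorial : ℝ)) := by
      rw [one_div]
      exact inv_anti₀ h0 h1
    exact mul_le_mul ih h2 (inv_nonneg.2 (by linarith)) (by positivity)

theorem R_exists (d : ℕ) {y : ℝ} (hy : 0 < y) : ∃ m, 2 ≤ m ∧ R d m ≤ y := by
  have h0 : (0 : ℝ) < 1 / (d.factorial : ℝ) := by
    have : (0 : ℝ) < (d.factorial : ℝ) := by exact_mod_cast Nat.factorial_pos d
    positivity
  have h1 : 1 / (1 + 1 / (d.factorial : ℝ)) < 1 := by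
    rw [div_lt_one (by linarith)]; linarith
  obtain ⟨n, hn⟩ := exists_pow_lt_of_lt_one hy h1
  refine ⟨n + 1 + 1, by omega, ?_⟩
  refine (R_small d (n + 1)).trans ?_
  refine le_trans ?_ hn.le
  exact pow_le_pow_of_le_one (by positivity) h1.le (by omega)

theorem exists_good (d : ℕ) (hd : 1 ≤ d) {y : ℝ} (hy : 0 < y) (hy1 : y ≤ 1) :
    ∃ m, 2 ≤ m ∧ R d m ≤ y ∧ y - 2 / (d.factorial : ℝ) ≤ R d m := by
  classical
  have hex := R_exists d hy
  have hspec := Nat.find_spec hex
  set m := Nat.find hex with hm
  refine ⟨m, hspec.1, hspec.2, ?_⟩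
  have hprev : y ≤ R d (m - 1) := by
    by_cases h : m = 2
    · rw [h]
      simp only [Nat.add_one_sub_one]
      rw [R_one]; exact hy1
    · have := Nat.find_min hex (m := m - 1) (by omega)
      push Not at this
      exact (this (by omega)).le
  have hs : R d m = R d (m - 1) * (S d (m - 1))⁻¹ := by
    rw [← R_succ]; congr 1; omega
  rw [hs]
  set e := 2 / (d.factorial : ℝ) with he
  have he0 : 0 ≤ e := by positivity
  have h1 : S d (m - 1) ≤ 1 + e := S_upper hd
  have h2 : (1 + e)⁻¹ ≤ (S d (m - 1))⁻¹ := inv_anti₀ (by linarith [S_pos (d := d) (i := m - 1)]) h1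
  have h3 : 1 - e ≤ (1 + e)⁻¹ := by
    rw [← one_div, le_div_iff₀ (by linarith)]
    nlinarith
  calc y - e ≤ y * (1 - e) := by nlinarith
    _ ≤ y * (1 + e)⁻¹ := by gcongr
    _ ≤ R d (m - 1) * (S d (m - 1))⁻¹ := by
        apply mul_le_mul hprev h2 (by positivity) (hy.le.trans hprev)

theorem card_lat {d m : ℕ} (hm : 2 ≤ m) : d ≤ Nat.card (Lat d m) := by
  rw [Nat.card_pi]
  have h1 : ∀ i : Fin m, 1 ≤ Nat.card (M (3 + d * (i : ℕ))) := fun i => by
    rw [Nat.card_eq_fintype_card, M.card]; omega
  have h2 : Nat.card (M (3 + d * ((⟨1, by omega⟩ : Fin m) : ℕ))) ≤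
      ∏ i : Fin m, Nat.card (M (3 + d * (i : ℕ))) :=
    Finset.single_le_prod' (f := fun i : Fin m => Nat.card (M (3 + d * (i : ℕ))))
      (fun i _ => h1 i) (Finset.mem_univ _)
  refine le_trans ?_ h2
  rw [Nat.card_eq_fintype_card, M.card]
  simp only [mul_one]
  omega

/-- The limit values: `x` is the limit of the ratios of finite bounded lattices `L 0, L 1, …` whose
cardinalities tend to infinity. -/
def IsLimitValue (x : ℝ) : Prop :=
  ∃ (L : ℕ → Type) (_ : ∀ k, Lattice (L k)) (_ : ∀ k, BoundedOrder (L k)) (_ : ∀ k, Finite (L k)),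
    Filter.Tendsto (fun k => Nat.card (L k)) Filter.atTop Filter.atTop ∧
    Filter.Tendsto (fun k => ratio (L k)) Filter.atTop (𝓝 x)

theorem ratio_nonneg (L : Type) [Lattice L] [BoundedOrder L] : 0 ≤ ratio L := by
  unfold ratio; positivity

theorem ratio_le_one (L : Type) [Lattice L] [BoundedOrder L] [Finite L] : ratio L ≤ 1 := by
  unfold ratio
  have : Finite (BoundedLatticeHom L L) := DFunLike.finite _
  apply div_le_one_of_le₀ _ (by positivity)
  exact_mod_cast Nat.card_le_card_of_injective _ Subtype.val_injective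

/-- The set of limit values of `|Aut L| / |End L|` over finite lattices with `|L| → ∞` is `[0,1]`. -/
theorem result : {x : ℝ | IsLimitValue x} = Set.Icc 0 1 := by
  ext x
  constructor
  · rintro ⟨L, i1, i2, i3, -, h2⟩
    exact ⟨ge_of_tendsto' h2 fun k => ratio_nonneg (L k), le_of_tendsto' h2 fun k => ratio_le_one (L k)⟩
  · rintro ⟨hx0, hx1⟩
    have hy0 : ∀ k : ℕ, 0 < max x (1 / ((k : ℝ) + 1 + 1)) := fun k =>
      lt_max_of_lt_right (by positivity)
    have hy1 : ∀ k : ℕ, max x (1 / ((k : ℝ) + 1 + 1)) ≤ 1 := fun k => by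
      apply max_le hx1
      rw [div_le_one (by positivity)]
      have : (0 : ℝ) ≤ k := Nat.cast_nonneg k
      linarith
    choose m hm1 hm2 hm3 using fun k : ℕ => exists_good (k + 1) (by omega) (hy0 k) (hy1 k)
    refine ⟨fun k => Lat (k + 1) (m k), fun k => inferInstance, fun k => inferInstance,
      fun k => inferInstance, ?_, ?_⟩
    · refine Filter.tendsto_atTop_mono (fun k => ?_) (Filter.tendsto_add_atTop_nat 1)
      exact card_lat (hm1 k)
    · have hr : ∀ k, ratio (Lat (k + 1) (m k)) = R (k + 1) (m k) := fun k => ratio_lat (by omega)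
      simp only [hr]
      have l1 : Filter.Tendsto (fun k : ℕ => 1 / ((k : ℝ) + 1 + 1)) Filter.atTop (𝓝 0) := by
        have := (tendsto_one_div_add_atTop_nhds_zero_nat (𝕜 := ℝ)).comp
          (Filter.tendsto_add_atTop_nat 1)
        refine this.congr fun k => ?_
        simp
      have l2 : Filter.Tendsto (fun k : ℕ => max x (1 / ((k : ℝ) + 1 + 1))) Filter.atTop (𝓝 x) := by
        have := (tendsto_const_nhds (x := x) (f := Filter.atTop (α := ℕ))).max l1
        rwa [max_eq_left hx0] at this
      have l3 : Filter.Tendsto (fun k : ℕ => 2 / ((k + 1).factorial : ℝ)) Filter.atTop (𝓝 0) := by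
        have h5 : Filter.Tendsto (fun k : ℕ => (((k + 1).factorial : ℕ) : ℝ)) Filter.atTop
            Filter.atTop := by
          apply tendsto_natCast_atTop_atTop.comp
          refine Filter.tendsto_atTop_mono (fun k => ?_) Filter.tendsto_id
          exact (Nat.le_succ k).trans (Nat.self_le_factorial (k + 1))
        exact Filter.Tendsto.const_div_atTop h5 2
      have l4 : Filter.Tendsto (fun k : ℕ => max x (1 / ((k : ℝ) + 1 + 1)) -
          2 / ((k + 1).factorial : ℝ)) Filter.atTop (𝓝 x) := by
        simpa using l2.sub l3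
      exact tendsto_of_tendsto_of_tendsto_of_le_of_le l4 l2 hm3 hm2

end Pool.Agent.Results.MP_e86a57_co.LimitSet
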